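import Pool.Agent.U280.OD.Stm
import Pool.Agent.H153R4.Pl

set_option autoImplicit false

/-! Project OD, package F2: the kinetic energy in Fourier space. -/

open MeasureTheory FourierTransform Set Filter Topology

namespace Pool.Agent.U669.OD

open Pool.Agent.U280.OD

theorem t_F2 : S_F2 := by
  intro d u hu hc
  have hfc : Continuous (fderiv ℝ u) := hu.continuous_fderiv (by norm_num)
  have hfs : HasCompactSupport (fderiv ℝ u) := hc.fderiv ℝ
  have hi : Integrable u := hu.continuous.integrable_of_hasCompactSupport hc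
  have hfi : Integrable (fderiv ℝ u) := hfc.integrable_of_hasCompactSupport hfs
  have hF := Real.fourier_fderiv hi (hu.differentiable (by norm_num)) hfi
  obtain ⟨D, hD⟩ : ∃ D : Fin d → E d → ℂ,
    D = fun i x => fderiv ℝ u x (EuclideanSpace.single i (1 : ℝ)) := ⟨_, rfl⟩
  have hDc : ∀ i, Continuous (D i) := by
    intro i
    rw [hD]
    exact hfc.clm_apply continuous_const
  have hDs : ∀ i, HasCompactSupport (D i) := by
    intro i
    rw [hD]
    exact hfs.comp_left (g := fun L : E d →L[ℝ] ℂ => L (EuclideanSpace.single i (1 : ℝ))) rfl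
  have hFD : ∀ i ξ, ‖𝓕 (D i) ξ‖ₑ ^ 2 =
      ENNReal.ofReal (4 * Real.pi ^ 2 * (ξ i) ^ 2) * ‖𝓕 u ξ‖ₑ ^ 2 := by
    intro i ξ
    have h1 : 𝓕 (D i) ξ = (𝓕 (fderiv ℝ u) ξ) (EuclideanSpace.single i (1 : ℝ)) := by
      rw [hD]
      exact (Real.fourier_continuousLinearMap_apply hfi).symm
    have h2 : ‖𝓕 (D i) ξ‖ = 2 * Real.pi * |ξ i| * ‖𝓕 u ξ‖ := by
      rw [h1, hF, VectorFourier.fourierSMulRight_apply, norm_smul, norm_smul]
      have h3 : ‖-(2 * (Real.pi : ℂ) * Complex.I)‖ = 2 * Real.pi := by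
        rw [norm_neg, norm_mul, norm_mul, Complex.norm_I, mul_one]
        simp [abs_of_pos Real.pi_pos]
      rw [h3]
      have h4 : ‖(-innerSL ℝ : E d →L[ℝ] E d →L[ℝ] ℝ) ξ (EuclideanSpace.single i (1 : ℝ))‖ = |ξ i| := by
        rw [neg_apply, neg_apply, norm_neg,
          innerSL_apply_apply, Real.norm_eq_abs, EuclideanSpace.inner_single_right]
        simp
      rw [h4]
      ring
    have h5 : ‖𝓕 (D i) ξ‖ₑ ^ 2 = ENNReal.ofReal (‖𝓕 (D i) ξ‖ ^ 2) := by
      rw [ENNReal.ofReal_pow (norm_nonneg _), ofReal_norm]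
    have h6 : ‖𝓕 u ξ‖ₑ ^ 2 = ENNReal.ofReal (‖𝓕 u ξ‖ ^ 2) := by
      rw [ENNReal.ofReal_pow (norm_nonneg _), ofReal_norm]
    rw [h5, h6, ← ENNReal.ofReal_mul (by positivity), h2]
    congr 1
    rw [mul_pow, mul_pow, sq_abs]
    ring
  have hFm : ∀ i, Continuous (𝓕 (D i)) := by
    intro i
    exact VectorFourier.fourierIntegral_continuous (L := innerₗ (E d)) Real.continuous_fourierChar
      continuous_inner ((hDc i).integrable_of_hasCompactSupport (hDs i))
  have h1 : ∫⁻ ξ, ENNReal.ofReal (lam ξ) * ‖𝓕 u ξ‖ₑ ^ 2 = ∑ i, ∫⁻ ξ, ‖𝓕 (D i) ξ‖ₑ ^ 2 := by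
    rw [← lintegral_finsetSum _ (fun i _ => by
      exact ((hFm i).measurable.enorm.pow_const 2))]
    apply lintegral_congr
    intro ξ
    simp_rw [hFD]
    rw [← Finset.sum_mul]
    congr 1
    rw [← ENNReal.ofReal_sum_of_nonneg (fun i _ => by positivity)]
    congr 1
    unfold lam
    rw [EuclideanSpace.norm_sq_eq, Finset.mul_sum]
    simp
  have h2 : ∫⁻ x, ENNReal.ofReal (grad2 u x) = ∑ i, ∫⁻ x, ‖D i x‖ₑ ^ 2 := by
    rw [← lintegral_finsetSum _ (fun i _ => by
      exact ((hDc i).measurable.enorm.pow_const 2))]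
    apply lintegral_congr
    intro x
    unfold grad2
    rw [ENNReal.ofReal_sum_of_nonneg (fun i _ => by positivity)]
    refine Finset.sum_congr rfl fun i _ => ?_
    rw [ENNReal.ofReal_pow (norm_nonneg _), ofReal_norm, hD]
  rw [h1, h2]
  refine (Finset.sum_congr rfl fun i _ => ?_).le
  exact Pool.Agent.H153R4.plancherel (D i) ((hDc i).integrable_of_hasCompactSupport (hDs i))
    ((hDc i).memLp_of_hasCompactSupport (hDs i))

end Pool.Agent.U669.OD
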